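import Pool.Agent.helper10.FL.SpecV

/-!
# Project fl: multiples of the short return; `m` is not straight (row fl:STN, helper41)
-/

set_option autoImplicit false

open Complex Metric Set Filter Topology MeasureTheory
open STA

noncomputable section

namespace FL

theorem STN_le (u v : ℂ) : |cx u v| ≤ ‖u‖ * ‖v‖ := by
  have h : cx u v = ((starRingEnd ℂ) u * v).im := by
    simp only [cx, mul_im, conj_re, conj_im]; ring
  rw [h]
  refine (abs_im_le_norm _).trans ?_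
  rw [norm_mul, RCLike.norm_conj]

theorem STN_sub (u v : ℂ) (l : ℝ) : cx u v = cx u (v - l * u) := by
  simp only [cx, sub_re, sub_im, mul_re, mul_im, ofReal_re, ofReal_im]
  ring

/-- STN. -/
theorem STN (hRRB : RRB_stmt) (hKIT : KIT_stmt) : STN_stmt := by
  intro Y κ e s c₁ a m hok hN
  obtain ⟨hRa, -, -, hTa, -⟩ := hRRB.2.2.2.2 Y κ e s c₁ a m hN
  have hpos : 0 < ‖T Y a 0‖ := norm_pos_iff.2 hTa
  have first : ∀ l : ℕ, 1 ≤ l → (l : ℝ) * ‖T Y a 0‖ ≤ 2 / 10 ^ 7 → RT Y (1 / 24 - 2 * (l * ‖T Y a 0‖)) (l * a) ∧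
      ∀ z ∈ ball (0 : ℂ) (1 / 100), ‖T Y (l * a) z - l * T Y a z‖ ≤ (l * ‖T Y a 0‖) ^ 2 := by
    intro l hl hle
    refine hKIT Y κ e s c₁ a m hok hN (1 / 24) (1 / 24 - 2 * (l * ‖T Y a 0‖)) a l ?_ le_rfl hRa hl ?_ ?_
    · norm_num at hle ⊢; linarith
    · linarith
    · norm_num at hle ⊢; linarith
  refine ⟨first, ?_⟩
  rintro ⟨l, hml, hlT⟩
  have hl1 : 1 ≤ l := by
    rcases Nat.eq_zero_or_pos l with h | h
    · have := hN.c1
      rw [hml, h, zero_mul] at this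
      omega
    · exact h
  obtain ⟨-, h2⟩ := first l hl1 (by norm_num at hlT ⊢; linarith)
  have h3 := h2 0 (mem_ball_self (by norm_num))
  rw [← hml] at h3
  set x : ℝ := l * ‖T Y a 0‖ with hx
  have hx0 : 0 < x := by
    rw [hx]
    have : (0 : ℝ) < l := by exact_mod_cast hl1
    positivity
  have hang := hN.ang
  have h4 : |cx (T Y a 0) (T Y m 0)| ≤ ‖T Y a 0‖ * x ^ 2 := by
    have h5 := STN_le (T Y a 0) (T Y m 0 - (l : ℝ) * T Y a 0)
    rw [← STN_sub] at h5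
    refine h5.trans ?_
    refine mul_le_mul_of_nonneg_left ?_ hpos.le
    simpa using h3
  have h6 : κ * ‖T Y m 0‖ < x ^ 2 := by
    have : ‖T Y a 0‖ * (κ * ‖T Y m 0‖) < ‖T Y a 0‖ * x ^ 2 := by nlinarith
    exact lt_of_mul_lt_mul_left this hpos.le
  have h7 : x ≤ ‖T Y m 0‖ + x ^ 2 := by
    have h8 : ‖(l : ℂ) * T Y a 0‖ = x := by
      rw [norm_mul, hx]; simp
    have h9 := norm_sub_norm_le ((l : ℂ) * T Y a 0) (T Y m 0)
    rw [h8, norm_sub_rev] at h9
    linarith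
  have hs := hN.sc
  have hs1 := hN.s1
  have hk0 := hN.k0
  have hxs : x ≤ 1 / 10 ^ 7 := hlT
  have h8 : (99 / 100) * x ≤ ‖T Y m 0‖ := by nlinarith
  have h9 : κ * (99 / 100) < x := by
    have : (κ * (99 / 100)) * x < x * x := by nlinarith
    exact lt_of_mul_lt_mul_right this hx0.le
  have h10 : ‖T Y m 0‖ ≤ κ / 10 ^ 16 := hs.trans hs1
  norm_num at h10
  linarith

end FL
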