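import Pool.Agent.helper10.FL.SpecT

/-!
# Project fl: start data give a flat disc (row fl:TOD, helper41)
-/

set_option autoImplicit false

open Complex Metric Set Filter Topology MeasureTheory
open STA

noncomputable section

namespace FL

/-- TOD. -/
theorem TOD (hTOP : TOP_stmt) (hTHB : TB.THB_stmt) (hGPX : TB.GPX_stmt) : TOD_stmt := by
  intro f E s μ hNF hS hJ hRX hIB
  obtain ⟨del, hdel, H⟩ := hTOP f E s μ hNF hS hJ hIB
  have hnE : ∀ z ∈ (GI.YG f E).J, z ∉ E := by
    intro z hz hzE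
    exact hz.2.2 0 (by simpa [JR.it] using hzE)
  have hGP := hGPX f E s hS hnE hRX
  refine ⟨del, hdel, ?_⟩
  intro U y r c h q hP hH hB
  obtain ⟨x, t, a, a', u, w, hL, hF⟩ := H U y r c h q hP hH hB
  exact hTHB (GI.YG f E) s μ x U t a a' u w hS hIB hL hF hGP

end FL
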